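import Pool.Agent.KA129.TaskRight
import Pool.Agent.KA129.TaskLeft
import Pool.Agent.KA129.TaskAppend
import Pool.Agent.KA129.TaskEnds
import Pool.Agent.KA129.TaskPow
import Pool.Agent.KA129.TaskImg
import Pool.Agent.KA129.TaskIdentity
import Pool.Agent.KA129.TaskY
import Pool.Agent.KA129.TaskBlock
import Pool.Agent.KA129.TaskTri
import Pool.Agent.KA129.TaskLow
import Pool.Agent.KA129.TaskSig
import Pool.Agent.KA129.TaskUp
import Pool.Agent.KA129.TaskTheta
import Pool.Agent.KA129.TaskSigTwo
import Pool.Agent.KA129.TaskImTwo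
import Pool.Agent.KA129.TaskCardTwo
import Pool.Agent.KA129.TaskNumTwo

/-!
# Counting k-abelian classes that contain an nth power (MP_7e3249_co)

For all `m ≥ 1`, `k ≥ 1`, `n ≥ 1` the number `c m k n (n L)` of `k`-abelian classes of words of length
`n L` over `m` letters which contain an `n`-th power has order `L ^ (m ^ k - m ^ (k-1))`; it is equal
to the number of `k`-abelian classes of words of length `L` if `k ≤ L + 1`; and for `m = k = 2` it is
`L ^ 2 - L + 2`.
-/

namespace Pool.Agent.Results.MP_7e3249_co.ClassesWithPower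

open Pool.Agent.KA129 Asymptotics

theorem ends : TaskEnds := TaskEnds.main TaskLeft.main TaskRight.main

theorem identity : TaskIdentity :=
  TaskIdentity.main (TaskPow.main TaskAppend.main ends) TaskImg.main

theorem theta : TaskTheta :=
  TaskTheta.main TaskY.main identity
    (TaskLow.main TaskY.main (TaskBlock.main TaskAppend.main) (TaskTri.main TaskY.main))
    (TaskUp.main TaskY.main (TaskSig.main TaskRight.main TaskLeft.main))

theorem numTwo : TaskNumTwo :=
  TaskNumTwo.main TaskImg.main (TaskSigTwo.main TaskRight.main TaskLeft.main) TaskImTwo.main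
    TaskCardTwo.main

theorem c_zero (m k n N : ℕ) (h : ¬ n ∣ N) : c m k n N = 0 := by
  unfold c
  have : {C : Set (List (Fin m)) | ∃ w : List (Fin m), (pow n w).length = N ∧
      C = {v | v.length = N ∧ KAb k (pow n w) v}} = ∅ := by
    ext C
    constructor
    · rintro ⟨w, hw, -⟩
      apply h
      rw [← hw]
      refine ⟨w.length, ?_⟩
      simp [pow, List.length_flatten]
    · intro h
      exact absurd h (Set.notMem_empty C)
  rw [this, Set.ncard_empty]

theorem result :
    (∀ m k n : ℕ, 1 ≤ m → 1 ≤ k → 1 ≤ n →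
      (fun L : ℕ => (c m k n (n * L) : ℝ)) =Θ[Filter.atTop]
        fun L : ℕ => (L : ℝ) ^ (m ^ k - m ^ (k - 1))) ∧
    (∀ n L : ℕ, 1 ≤ n → 1 ≤ L → c 2 2 n (n * L) = L ^ 2 - L + 2) ∧
    (∀ m k n L : ℕ, 1 ≤ n → k ≤ L + 1 → c m k n (n * L) = numClasses m k L) ∧
    (∀ m k n N : ℕ, ¬ n ∣ N → c m k n N = 0) := by
  refine ⟨?_, ?_, identity, c_zero⟩
  · intro m k n hm hk hn
    obtain ⟨m', rfl⟩ : ∃ m', m = m' + 1 := ⟨m - 1, by omega⟩
    obtain ⟨k', rfl⟩ : ∃ k', k = k' + 1 := ⟨k - 1, by omega⟩
    have h := theta m' (k' + 1) n hk hn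
    have e : m' * (m' + 1) ^ (k' + 1 - 1) = (m' + 1) ^ (k' + 1) - (m' + 1) ^ (k' + 1 - 1) := by
      rw [Nat.add_sub_cancel, pow_succ]
      have : (m' + 1) ^ k' * (m' + 1) = m' * (m' + 1) ^ k' + (m' + 1) ^ k' := by ring
      omega
    rw [e] at h
    exact h
  · intro n L hn hL
    rw [identity 2 2 n L hn (by omega)]
    have h1 := numTwo L hL
    have h2 : L ≤ L ^ 2 := Nat.le_self_pow (by norm_num) L
    omega

end Pool.Agent.Results.MP_7e3249_co.ClassesWithPower
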